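import Pool.Agent.Helper10.Qc.Stmts

set_option autoImplicit false

/-!
# Soundness of the subdivision for the sums over the cubic lattice
-/

namespace Pool.Agent.Helper10.Qc

open Pool.Agent.Helper19.Qh Pool.Agent.Helper19.Qc

/-- the set of indices -/
private def fb_T : Finset ℤ := {0, -1, 1}

private def fb_S : Finset (Fin 3 → ℤ) :=
  (fb_T ×ˢ (fb_T ×ˢ fb_T)).image (fun t => (![t.1, t.2.1, t.2.2] : Fin 3 → ℤ))

private theorem fb_mem (n : Fin 3 → ℤ) (h0 : n 0 ∈ fb_T) (h1 : n 1 ∈ fb_T) (h2 : n 2 ∈ fb_T) :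
    n ∈ fb_S := by
  unfold fb_S
  rw [Finset.mem_image]
  refine ⟨(n 0, n 1, n 2), ?_, ?_⟩
  · rw [Finset.mem_product, Finset.mem_product]
    exact ⟨h0, h1, h2⟩
  · funext i
    fin_cases i <;> rfl

private theorem fb_coord (x : ℝ) (n : ℤ) (h0 : 0 ≤ x) (h1 : x ≤ 1 / 2) (hn : n ∉ fb_T) :
    13 / 8 ≤ (x + n) ^ 2 := by
  have h : n ≤ -2 ∨ 2 ≤ n := by
    unfold fb_T at hn
    simp only [Finset.mem_insert, Finset.mem_singleton, not_or] at hn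
    omega
  rcases h with h | h
  · have : (n : ℝ) ≤ -2 := by exact_mod_cast h
    nlinarith
  · have : (2 : ℝ) ≤ n := by exact_mod_cast h
    nlinarith

private theorem fb_sq (k M : ℕ) (x : ℝ) (h : (M : ℝ) ≤ 1048576 * x) :
    (max ((k : ℝ) / 8 - x) 0) ^ 2 ≤ (sqF (Nat.mul 131072 k) M : ℝ) / 1099511627776 := by
  have e : (sqF (Nat.mul 131072 k) M : ℝ) = ((131072 * k - M : ℕ) : ℝ) ^ 2 := by
    have : sqF (Nat.mul 131072 k) M = (131072 * k - M) * (131072 * k - M) := rfl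
    rw [this]; push_cast; ring
  rw [e]
  have h1 : max ((k : ℝ) / 8 - x) 0 ≤ ((131072 * k - M : ℕ) : ℝ) / 1048576 := by
    apply max_le
    · have h2 : (131072 * k : ℝ) - M ≤ ((131072 * k - M : ℕ) : ℝ) := by
        have : 131072 * k ≤ (131072 * k - M) + M := by omega
        have : ((131072 * k : ℕ) : ℝ) ≤ (((131072 * k - M) + M : ℕ) : ℝ) := by exact_mod_cast this
        push_cast at this ⊢
        linarith
      rw [le_div_iff₀ (by norm_num)]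
      linarith
    · positivity
  have h0 : (0 : ℝ) ≤ max ((k : ℝ) / 8 - x) 0 := le_max_right _ _
  calc (max ((k : ℝ) / 8 - x) 0) ^ 2 ≤ (((131072 * k - M : ℕ) : ℝ) / 1048576) ^ 2 :=
        pow_le_pow_left₀ h0 h1 2
    _ = _ := by ring

/-- the three squared distances -/
private theorem fb_dist (x : ℝ) (l h : ℕ) (hh : h ≤ 512) (h1 : (l : ℝ) ≤ 1024 * x)
    (h2 : 1024 * x ≤ h) :
    ((l * l : ℕ) : ℝ) ≤ 1048576 * (x + ((0 : ℤ) : ℝ)) ^ 2 ∧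
    (((1024 - h) * (1024 - h) : ℕ) : ℝ) ≤ 1048576 * (x + ((-1 : ℤ) : ℝ)) ^ 2 ∧
    (((1024 + l) * (1024 + l) : ℕ) : ℝ) ≤ 1048576 * (x + ((1 : ℤ) : ℝ)) ^ 2 := by
  have hl : (0 : ℝ) ≤ l := Nat.cast_nonneg l
  have hh' : (h : ℝ) ≤ 512 := by exact_mod_cast hh
  have e : ((1024 - h : ℕ) : ℝ) = 1024 - (h : ℝ) := by
    rw [Nat.cast_sub (by omega)]; norm_num
  refine ⟨?_, ?_, ?_⟩
  · push_cast; nlinarith
  · push_cast [e]; nlinarith
  · push_cast; nlinarith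

private theorem fb_line (k M a b c : ℕ) (m x y z : ℝ) (hm : (M : ℝ) ≤ 1048576 * m)
    (ha : (a : ℝ) ≤ 1048576 * x) (hb : (b : ℝ) ≤ 1048576 * y) (hc : (c : ℝ) ≤ 1048576 * z) :
    (max ((k : ℝ) / 8 - (m + x)) 0) ^ 2 + ((max ((k : ℝ) / 8 - (m + y)) 0) ^ 2 +
      (max ((k : ℝ) / 8 - (m + z)) 0) ^ 2) ≤
    (lineF (Nat.mul 131072 k) M a b c : ℝ) / 1099511627776 := by
  have e : (lineF (Nat.mul 131072 k) M a b c : ℝ) = (sqF (Nat.mul 131072 k) (M + a) : ℝ) +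
      ((sqF (Nat.mul 131072 k) (M + b) : ℝ) + (sqF (Nat.mul 131072 k) (M + c) : ℝ)) := by
    have : lineF (Nat.mul 131072 k) M a b c = sqF (Nat.mul 131072 k) (M + a) +
      (sqF (Nat.mul 131072 k) (M + b) + sqF (Nat.mul 131072 k) (M + c)) := rfl
    rw [this]; push_cast; ring
  rw [e]
  have h1 := fb_sq k (M + a) (m + x) (by push_cast; linarith)
  have h2 := fb_sq k (M + b) (m + y) (by push_cast; linarith)
  have h3 := fb_sq k (M + c) (m + z) (by push_cast; linarith)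
  rw [add_div, add_div]
  linarith

private theorem fb_plane (k M a b c a' b' c' : ℕ) (m x y z x' y' z' : ℝ)
    (hm : (M : ℝ) ≤ 1048576 * m)
    (ha : (a : ℝ) ≤ 1048576 * x) (hb : (b : ℝ) ≤ 1048576 * y) (hc : (c : ℝ) ≤ 1048576 * z)
    (ha' : (a' : ℝ) ≤ 1048576 * x') (hb' : (b' : ℝ) ≤ 1048576 * y')
    (hc' : (c' : ℝ) ≤ 1048576 * z') (S : ℝ → ℝ)
    (hS : ∀ t, S t = (max ((k : ℝ) / 8 - (t + x')) 0) ^ 2 + ((max ((k : ℝ) / 8 - (t + y')) 0) ^ 2 +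
      (max ((k : ℝ) / 8 - (t + z')) 0) ^ 2)) :
    S (m + x) + (S (m + y) + S (m + z)) ≤
    (planeF (Nat.mul 131072 k) M a b c a' b' c' : ℝ) / 1099511627776 := by
  have e : (planeF (Nat.mul 131072 k) M a b c a' b' c' : ℝ) =
      (lineF (Nat.mul 131072 k) (M + a) a' b' c' : ℝ) +
      ((lineF (Nat.mul 131072 k) (M + b) a' b' c' : ℝ) +
        (lineF (Nat.mul 131072 k) (M + c) a' b' c' : ℝ)) := by
    have : planeF (Nat.mul 131072 k) M a b c a' b' c' =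
      lineF (Nat.mul 131072 k) (M + a) a' b' c' +
      (lineF (Nat.mul 131072 k) (M + b) a' b' c' +
        lineF (Nat.mul 131072 k) (M + c) a' b' c') := rfl
    rw [this]; push_cast; ring
  rw [e]
  have h1 := fb_line k (M + a) a' b' c' (m + x) x' y' z' (by push_cast; linarith) ha' hb' hc'
  have h2 := fb_line k (M + b) a' b' c' (m + y) x' y' z' (by push_cast; linarith) ha' hb' hc'
  have h3 := fb_line k (M + c) a' b' c' (m + z) x' y' z' (by push_cast; linarith) ha' hb' hc'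
  rw [add_div, add_div, hS, hS, hS]
  linarith

private theorem fb_base (k l0 h0 l1 h1 l2 h2 : ℕ) (hk : k ≤ 13) (hh0 : h0 ≤ 512) (hh1 : h1 ≤ 512)
    (hh2 : h2 ≤ 512) (hok : okF k l0 h0 l1 h1 l2 h2 = true) (c : Fin 3 → ℝ)
    (b0 : (l0 : ℝ) ≤ 1024 * c 0 ∧ 1024 * c 0 ≤ h0) (b1 : (l1 : ℝ) ≤ 1024 * c 1 ∧ 1024 * c 1 ≤ h1)
    (b2 : (l2 : ℝ) ≤ 1024 * c 2 ∧ 1024 * c 2 ≤ h2) :
    S3 ((k : ℝ) / 8) c ≤ ENNReal.ofReal ((tabF k : ℝ) / 10000) := by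
  have hk' : (k : ℝ) ≤ 13 := by exact_mod_cast hk
  have r : ∀ (x : ℝ) (l h : ℕ), h ≤ 512 → ((l : ℝ) ≤ 1024 * x ∧ 1024 * x ≤ h) →
      0 ≤ x ∧ x ≤ 1 / 2 := by
    intro x l h hh hx
    have e1 : (0 : ℝ) ≤ l := Nat.cast_nonneg l
    have e2 : (h : ℝ) ≤ 512 := by exact_mod_cast hh
    constructor <;> linarith [hx.1, hx.2]
  have r0 := r (c 0) l0 h0 hh0 b0
  have r1 := r (c 1) l1 h1 hh1 b1
  have r2 := r (c 2) l2 h2 hh2 b2
  -- reduction to a finite sum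
  have hz : ∀ n : Fin 3 → ℤ, n ∉ fb_S → ENNReal.ofReal ((max ((k : ℝ) / 8 -
      ((c 0 + n 0) ^ 2 + (c 1 + n 1) ^ 2 + (c 2 + n 2) ^ 2)) 0) ^ 2) = 0 := by
    intro n hn
    have : (k : ℝ) / 8 - ((c 0 + n 0) ^ 2 + (c 1 + n 1) ^ 2 + (c 2 + n 2) ^ 2) ≤ 0 := by
      have hor : n 0 ∉ fb_T ∨ n 1 ∉ fb_T ∨ n 2 ∉ fb_T := by
        by_contra hcon
        push Not at hcon
        exact hn (fb_mem n hcon.1 hcon.2.1 hcon.2.2)
      rcases hor with h | h | h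
      · have := fb_coord (c 0) (n 0) r0.1 r0.2 h
        nlinarith [sq_nonneg (c 1 + n 1), sq_nonneg (c 2 + n 2)]
      · have := fb_coord (c 1) (n 1) r1.1 r1.2 h
        nlinarith [sq_nonneg (c 0 + n 0), sq_nonneg (c 2 + n 2)]
      · have := fb_coord (c 2) (n 2) r2.1 r2.2 h
        nlinarith [sq_nonneg (c 0 + n 0), sq_nonneg (c 1 + n 1)]
    rw [max_eq_right this]
    simp
  unfold S3
  rw [tsum_eq_sum (s := fb_S) (fun n hn => hz n hn),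
    ← ENNReal.ofReal_sum_of_nonneg (fun n _ => by positivity)]
  apply ENNReal.ofReal_le_ofReal
  unfold fb_S
  rw [Finset.sum_image, Finset.sum_product]
  swap
  · intro a _ b _ hab
    have e0 := congrFun hab 0
    have e1 := congrFun hab 1
    have e2 := congrFun hab 2
    simp only [Matrix.cons_val_zero, Matrix.cons_val_one, Matrix.cons_val] at e0 e1 e2
    exact Prod.ext e0 (Prod.ext e1 e2)
  -- the certificate
  have hc1 : 10000 * spaceF (Nat.mul 131072 k)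
      (Nat.mul l0 l0) (Nat.mul (Nat.sub 1024 h0) (Nat.sub 1024 h0))
      (Nat.mul (Nat.add 1024 l0) (Nat.add 1024 l0))
      (Nat.mul l1 l1) (Nat.mul (Nat.sub 1024 h1) (Nat.sub 1024 h1))
      (Nat.mul (Nat.add 1024 l1) (Nat.add 1024 l1))
      (Nat.mul l2 l2) (Nat.mul (Nat.sub 1024 h2) (Nat.sub 1024 h2))
      (Nat.mul (Nat.add 1024 l2) (Nat.add 1024 l2)) ≤ tabF k * 1099511627776 :=
    Nat.le_of_ble_eq_true hok
  have hc2 : spaceF (Nat.mul 131072 k)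
      (Nat.mul l0 l0) (Nat.mul (Nat.sub 1024 h0) (Nat.sub 1024 h0))
      (Nat.mul (Nat.add 1024 l0) (Nat.add 1024 l0))
      (Nat.mul l1 l1) (Nat.mul (Nat.sub 1024 h1) (Nat.sub 1024 h1))
      (Nat.mul (Nat.add 1024 l1) (Nat.add 1024 l1))
      (Nat.mul l2 l2) (Nat.mul (Nat.sub 1024 h2) (Nat.sub 1024 h2))
      (Nat.mul (Nat.add 1024 l2) (Nat.add 1024 l2)) =
      planeF (Nat.mul 131072 k) (l0 * l0) (l1 * l1) ((1024 - h1) * (1024 - h1))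
        ((1024 + l1) * (1024 + l1)) (l2 * l2) ((1024 - h2) * (1024 - h2))
        ((1024 + l2) * (1024 + l2)) +
      (planeF (Nat.mul 131072 k) ((1024 - h0) * (1024 - h0)) (l1 * l1)
        ((1024 - h1) * (1024 - h1))
        ((1024 + l1) * (1024 + l1)) (l2 * l2) ((1024 - h2) * (1024 - h2))
        ((1024 + l2) * (1024 + l2)) +
      planeF (Nat.mul 131072 k) ((1024 + l0) * (1024 + l0)) (l1 * l1)
        ((1024 - h1) * (1024 - h1))
        ((1024 + l1) * (1024 + l1)) (l2 * l2) ((1024 - h2) * (1024 - h2))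
        ((1024 + l2) * (1024 + l2))) := rfl
  rw [hc2] at hc1
  obtain ⟨d0a, d0b, d0c⟩ := fb_dist (c 0) l0 h0 hh0 b0.1 b0.2
  obtain ⟨d1a, d1b, d1c⟩ := fb_dist (c 1) l1 h1 hh1 b1.1 b1.2
  obtain ⟨d2a, d2b, d2c⟩ := fb_dist (c 2) l2 h2 hh2 b2.1 b2.2
  set S : ℝ → ℝ := fun t => (max ((k : ℝ) / 8 - (t + (c 2 + ((0 : ℤ) : ℝ)) ^ 2)) 0) ^ 2 +
    ((max ((k : ℝ) / 8 - (t + (c 2 + ((-1 : ℤ) : ℝ)) ^ 2)) 0) ^ 2 +
      (max ((k : ℝ) / 8 - (t + (c 2 + ((1 : ℤ) : ℝ)) ^ 2)) 0) ^ 2) with hSdef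
  have q0 := fb_plane k _ _ _ _ _ _ _ _ _ _ _ _ _ _ d0a d1a d1b d1c d2a d2b d2c S (fun t => rfl)
  have q1 := fb_plane k _ _ _ _ _ _ _ _ _ _ _ _ _ _ d0b d1a d1b d1c d2a d2b d2c S (fun t => rfl)
  have q2 := fb_plane k _ _ _ _ _ _ _ _ _ _ _ _ _ _ d0c d1a d1b d1c d2a d2b d2c S (fun t => rfl)
  have hc3 : ∀ (A B C D : ℕ), 10000 * (A + (B + C)) ≤ D * 1099511627776 →
      (A : ℝ) / 1099511627776 + ((B : ℝ) / 1099511627776 + (C : ℝ) / 1099511627776) ≤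
      (D : ℝ) / 10000 := by
    intro A B C D h
    have h' : ((10000 * (A + (B + C)) : ℕ) : ℝ) ≤ ((D * 1099511627776 : ℕ) : ℝ) := by
      exact_mod_cast h
    push_cast at h'
    rw [← add_div, ← add_div, div_le_div_iff₀ (by norm_num) (by norm_num)]
    linarith
  have q3 := hc3 _ _ _ _ hc1
  refine le_trans (le_of_eq ?_) (le_trans (add_le_add q0 (add_le_add q1 q2)) q3)
  have hsum : ∀ f : ℤ → ℝ, ∑ a ∈ fb_T, f a = f 0 + (f (-1) + f 1) := by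
    intro f
    unfold fb_T
    rw [Finset.sum_insert (by decide), Finset.sum_insert (by decide), Finset.sum_singleton]
  have hin : ∀ a b : ℤ, ∑ x ∈ fb_T, (max ((k : ℝ) / 8 - ((c 0 + (a : ℝ)) ^ 2 +
      (c 1 + (b : ℝ)) ^ 2 + (c 2 + (x : ℝ)) ^ 2)) 0) ^ 2 =
      S ((c 0 + (a : ℝ)) ^ 2 + (c 1 + (b : ℝ)) ^ 2) := by
    intro a b
    rw [hsum]
  have hmid : ∀ a : ℤ, ∑ y ∈ fb_T ×ˢ fb_T, (max ((k : ℝ) / 8 - ((c 0 + (a : ℝ)) ^ 2 +
      (c 1 + (y.1 : ℝ)) ^ 2 + (c 2 + (y.2 : ℝ)) ^ 2)) 0) ^ 2 =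
      S ((c 0 + (a : ℝ)) ^ 2 + (c 1 + ((0 : ℤ) : ℝ)) ^ 2) +
      (S ((c 0 + (a : ℝ)) ^ 2 + (c 1 + ((-1 : ℤ) : ℝ)) ^ 2) +
        S ((c 0 + (a : ℝ)) ^ 2 + (c 1 + ((1 : ℤ) : ℝ)) ^ 2)) := by
    intro a
    rw [Finset.sum_product]
    simp only [hin]
    rw [hsum]
  have hfin : ∀ a : ℤ, ∑ y ∈ fb_T ×ˢ fb_T, (max ((k : ℝ) / 8 -
      ((c 0 + ((![a, y.1, y.2] : Fin 3 → ℤ) 0 : ℝ)) ^ 2 +
      (c 1 + ((![a, y.1, y.2] : Fin 3 → ℤ) 1 : ℝ)) ^ 2 +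
      (c 2 + ((![a, y.1, y.2] : Fin 3 → ℤ) 2 : ℝ)) ^ 2)) 0) ^ 2 =
      S ((c 0 + (a : ℝ)) ^ 2 + (c 1 + ((0 : ℤ) : ℝ)) ^ 2) +
      (S ((c 0 + (a : ℝ)) ^ 2 + (c 1 + ((-1 : ℤ) : ℝ)) ^ 2) +
        S ((c 0 + (a : ℝ)) ^ 2 + (c 1 + ((1 : ℤ) : ℝ)) ^ 2)) := by
    intro a
    rw [← hmid a]
    rfl
  simp only [hfin]
  rw [hsum]

private theorem fb_mid (l h : ℕ) (x : ℝ) (hx : (l : ℝ) ≤ x ∧ x ≤ h) (hh : h ≤ 512) :
    mid l h ≤ 512 ∧ (((l : ℝ) ≤ x ∧ x ≤ (mid l h : ℕ)) ∨ (((mid l h : ℕ) : ℝ) ≤ x ∧ x ≤ h)) := by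
  have e : l ≤ h := by
    have : (l : ℝ) ≤ h := le_trans hx.1 hx.2
    exact_mod_cast this
  have em : mid l h = (l + h) / 2 := rfl
  refine ⟨by rw [em]; omega, ?_⟩
  rcases le_total x ((mid l h : ℕ) : ℝ) with h1 | h1
  · exact Or.inl ⟨hx.1, h1⟩
  · exact Or.inr ⟨h1, hx.2⟩

private theorem fb_and (a b : Bool) (h : cond a b false = true) : a = true ∧ b = true := by
  cases a <;> cases b <;> simp_all

theorem st_FB : ST_FB := by
  intro k n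
  induction n with
  | zero =>
    intro l0 h0 l1 h1 l2 h2 _ _ _ _ hr
    exact absurd hr (by simp [recF])
  | succ n ih =>
    intro l0 h0 l1 h1 l2 h2 hk hh0 hh1 hh2 hr c c2 c21 c10 b0 b1 b2
    have n01 : ¬ (h0 < l1) := by
      intro hlt
      have : (h0 : ℝ) < l1 := by exact_mod_cast hlt
      linarith [b0.2, b1.1]
    have n12 : ¬ (h1 < l2) := by
      intro hlt
      have : (h1 : ℝ) < l2 := by exact_mod_cast hlt
      linarith [b1.2, b2.1]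
    have nb01 : Nat.blt h0 l1 = false := by
      by_contra hcon
      exact n01 (Nat.le_of_ble_eq_true ((Bool.not_eq_false _).mp hcon))
    have nb12 : Nat.blt h1 l2 = false := by
      by_contra hcon
      exact n12 (Nat.le_of_ble_eq_true ((Bool.not_eq_false _).mp hcon))
    unfold recF at hr
    rw [nb01, nb12, cond_false, cond_false] at hr
    cases hok : okF k l0 h0 l1 h1 l2 h2 with
    | true => exact fb_base k l0 h0 l1 h1 l2 h2 hk hh0 hh1 hh2 hok c b0 b1 b2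
    | false =>
      rw [hok, cond_false] at hr
      obtain ⟨m0, o0⟩ := fb_mid l0 h0 _ b0 hh0
      obtain ⟨m1, o1⟩ := fb_mid l1 h1 _ b1 hh1
      obtain ⟨m2, o2⟩ := fb_mid l2 h2 _ b2 hh2
      cases hA : cond (Nat.ble (Nat.sub h1 l1) (Nat.sub h0 l0))
          (Nat.ble (Nat.sub h2 l2) (Nat.sub h0 l0)) false with
      | true =>
        rw [hA, cond_true] at hr
        obtain ⟨r1, r2⟩ := fb_and _ _ hr
        rcases o0 with o | o
        · exact ih l0 _ l1 h1 l2 h2 hk m0 hh1 hh2 r1 c c2 c21 c10 o b1 b2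
        · exact ih _ h0 l1 h1 l2 h2 hk hh0 hh1 hh2 r2 c c2 c21 c10 o b1 b2
      | false =>
        rw [hA, cond_false] at hr
        cases hB : Nat.ble (Nat.sub h2 l2) (Nat.sub h1 l1) with
        | true =>
          rw [hB, cond_true] at hr
          obtain ⟨r1, r2⟩ := fb_and _ _ hr
          rcases o1 with o | o
          · exact ih l0 h0 l1 _ l2 h2 hk hh0 m1 hh2 r1 c c2 c21 c10 b0 o b2
          · exact ih l0 h0 _ h1 l2 h2 hk hh0 hh1 hh2 r2 c c2 c21 c10 b0 o b2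
        | false =>
          rw [hB, cond_false] at hr
          obtain ⟨r1, r2⟩ := fb_and _ _ hr
          rcases o2 with o | o
          · exact ih l0 h0 l1 h1 l2 _ hk hh0 hh1 m2 r1 c c2 c21 c10 b0 b1 o
          · exact ih l0 h0 l1 h1 _ h2 hk hh0 hh1 hh2 r2 c c2 c21 c10 b0 b1 o

end Pool.Agent.Helper10.Qc
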